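import Mathlib

/-!
# Project MA: the induced groups of proper Mathon 8-arcs (problem MP_df3b73_co, Q2, full answer)

Statements of the packages (Mathlib only).
-/

namespace Pool.Agent.U830.MA

/-- Package FIELD -/
def S_FIELD : Prop := ∀ (K : Type) [Field K] [Fintype K] [Algebra (ZMod 2) K] (h : ℕ),
  Fintype.card K = 2 ^ h → 7 ∣ h → h ≠ 0 →
  ∃ (c : K) (τ : K ≃+* K) (R : Finset K), R.card = 7 ∧ (∀ a, a ∈ R ↔ a ^ 7 + a + 1 = 0) ∧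
    τ c = c ∧ (∀ a ∈ R, Algebra.trace (ZMod 2) K (c * (1 + a ^ 3)) = 1) ∧
    (∀ a ∈ R, τ a ≠ a) ∧ (∀ a ∈ R, τ^[7] a = a)

/-- Package ALG -/
def S_ALG : Prop := ∀ (K : Type) [Field K] [Fintype K] [CharP K 2] (A : AddSubgroup K)
  (U W : K → K) (k m00 m01 m02 m10 m11 m12 : K),
  Nat.card A = 8 →
  (∀ a ∈ A, ∀ b ∈ A, U (a + b) = U a + U b) → (∀ a ∈ A, ∀ b ∈ A, W (a + b) = W a + W b) →
  k ≠ 0 → k ≠ 1 → (∀ a ∈ A, k * a ∈ A) → m00 * m11 + m01 * m10 ≠ 0 →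
  (∀ a ∈ A, m00 ^ 2 * U (k * a) + k * a * (m00 * m01) + m01 ^ 2 * W (k * a) +
    (k * a) ^ 2 * m02 ^ 2 = (m00 * m11 + m01 * m10) * k * U a) →
  (∀ a ∈ A, m10 ^ 2 * U (k * a) + k * a * (m10 * m11) + m11 ^ 2 * W (k * a) +
    (k * a) ^ 2 * m12 ^ 2 = (m00 * m11 + m01 * m10) * k * W a) →
  (∃ u0 u1 w0 w1 : K, ∀ a ∈ A, U a = u0 * a + u1 * a ^ 2 ∧ W a = w0 * a + w1 * a ^ 2) ∨
  (∃ x y z : K, (x ≠ 0 ∨ y ≠ 0) ∧
    ∀ a ∈ A, U a * x ^ 2 + a * x * y + W a * y ^ 2 + a ^ 2 * z ^ 2 = 0)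

/-- Package GL: the elements of `GL_3(2)` have order at most `7` -/
def S_GL : Prop := ∀ (V : Type) [AddCommGroup V], Nat.card V = 8 → (∀ v : V, v + v = 0) →
  ∀ f : V → V, Function.Injective f → (∀ u v, f (u + v) = f u + f v) →
  ∃ n, 0 < n ∧ n ≤ 7 ∧ ∀ v, f^[n] v = v

end Pool.Agent.U830.MA
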