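import Mathlib
import Pool.Agent.Results.MP_df3b73_co.InducedGroupProper

/-!
# Mathon 8-arcs: collineations, the induced group, Denniston type
-/

namespace Pool.Agent.U830.MA

open Pool.Agent.Results.MP_df3b73_co.InducedGroupProper
open scoped LinearAlgebra.Projectivization

section ops

variable {K : Type} [Field K]

/-- the identity -/
def cOne : Collineation K := ⟨Equiv.refl _, RingEquiv.refl K, fun _ _ => rfl, fun _ _ => rfl⟩

/-- the composition `g ∘ g'` -/
def cComp (g g' : Collineation K) : Collineation K where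
  e := g'.e.trans g.e
  σ := g'.σ.trans g.σ
  map_add := by
    intro u v
    simp only [Equiv.trans_apply, g'.map_add, g.map_add]
  map_smul := by
    intro c v
    simp only [Equiv.trans_apply, g'.map_smul, g.map_smul, RingEquiv.trans_apply]

/-- the inverse -/
def cInv (g : Collineation K) : Collineation K where
  e := g.e.symm
  σ := g.σ.symm
  map_add := by
    intro u v
    apply g.e.injective
    simp only [g.map_add, Equiv.apply_symm_apply]
  map_smul := by
    intro c v
    apply g.e.injective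
    simp only [g.map_smul, Equiv.apply_symm_apply, RingEquiv.apply_symm_apply]

theorem act_one (P : ℙ K (Fin 3 → K)) : (cOne : Collineation K).act P = P := by
  induction P using Projectivization.ind with | _ v hv =>
  rw [act_mk]
  rfl

theorem act_comp (g g' : Collineation K) (P : ℙ K (Fin 3 → K)) :
    (cComp g g').act P = g.act (g'.act P) := by
  induction P using Projectivization.ind with | _ v hv =>
  rw [act_mk, act_mk, act_mk]
  rfl

theorem act_inv (g : Collineation K) (P : ℙ K (Fin 3 → K)) : (cInv g).act (g.act P) = P := by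
  induction P using Projectivization.ind with | _ v hv =>
  rw [act_mk, act_mk]
  congr 1
  exact g.e.symm_apply_apply v

theorem image_points (g : Collineation K) (F F' : Conic K)
    (h : ∀ v, F.form v = 0 ↔ F'.form (g.e v) = 0) : g.act '' F.points = F'.points := by
  ext P
  constructor
  · rintro ⟨Q, hQ, rfl⟩
    induction Q using Projectivization.ind with | _ v hv =>
    rw [act_mk, mk_mem_points]
    exact (h v).1 ((mk_mem_points _ _ _).1 hQ)
  · intro hP
    induction P using Projectivization.ind with | _ v hv =>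
    have hv' : g.e.symm v ≠ 0 := (cInv g).map_ne_zero hv
    refine ⟨Projectivization.mk K (g.e.symm v) hv', ?_, ?_⟩
    · rw [mk_mem_points, h, Equiv.apply_symm_apply]
      exact (mk_mem_points _ _ _).1 hP
    · rw [act_mk]
      congr 1
      exact g.e.apply_symm_apply v

theorem form_of_image {g : Collineation K} {F F' : Conic K} (h : g.act '' F.points = F'.points)
    (v : Fin 3 → K) (hv : F.form v = 0) : F'.form (g.e v) = 0 := by
  by_cases hv0 : v = 0
  · rw [hv0, Collineation.map_zero]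
    simp [Conic.form]
  · have h1 : Projectivization.mk K v hv0 ∈ F.points := (mk_mem_points _ _ _).2 hv
    have h2 : g.act (Projectivization.mk K v hv0) ∈ F'.points := by
      rw [← h]
      exact ⟨_, h1, rfl⟩
    rw [act_mk] at h2
    exact (mk_mem_points _ _ _).1 h2

theorem ind_mul {𝒞 : Finset (Conic K)} {p g g' : Collineation K} {π π' : Equiv.Perm 𝒞}
    (hg : Induces 𝒞 p g π) (hg' : Induces 𝒞 p g' π') : Induces 𝒞 p (cComp g g') (π * π') := by
  intro F
  have h1 : (cComp g g').act = g.act ∘ g'.act := funext (act_comp g g')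
  rw [h1, Set.image_comp, hg' F, hg (π' F)]
  rfl

theorem ind_one {𝒞 : Finset (Conic K)} {p : Collineation K} : Induces 𝒞 p cOne 1 := by
  intro F
  have h1 : (cOne : Collineation K).act = id := funext act_one
  rw [h1, Set.image_id]
  rfl

theorem ind_inv {𝒞 : Finset (Conic K)} {p g : Collineation K} {π : Equiv.Perm 𝒞}
    (hg : Induces 𝒞 p g π) : Induces 𝒞 p (cInv g) π⁻¹ := by
  intro F
  have h2 := hg (π⁻¹ F)
  have h3 : π (π⁻¹ F) = F := by simp
  rw [h3] at h2
  rw [← h2, ← Set.image_comp]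
  have h4 : (cInv g).act ∘ g.act = id := funext (act_inv g)
  rw [h4, Set.image_id]

/-- The group induced on the seven conics `p(F)`, `F ∈ 𝒞`, by the collineations that permute
them. -/
def inducedGroup (𝒞 : Finset (Conic K)) (p : Collineation K) : Subgroup (Equiv.Perm 𝒞) where
  carrier := {π | ∃ g : Collineation K, Induces 𝒞 p g π}
  mul_mem' := by
    rintro π π' ⟨g, hg⟩ ⟨g', hg'⟩
    exact ⟨cComp g g', ind_mul hg hg'⟩
  one_mem' := ⟨cOne, ind_one⟩
  inv_mem' := by
    rintro π ⟨g, hg⟩
    exact ⟨cInv g, ind_inv hg⟩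

/-- The arc of `𝒞` is of Denniston type: some collineation takes its conics to the conics
`F_{α,1,λ}` with constant `α` of a Mathon family. -/
def DennistonType [Algebra (ZMod 2) K] (𝒞 : Finset (Conic K)) : Prop :=
  ∃ (𝒟 : Finset (Conic K)) (α : K) (g : Collineation K), IsMathonFamily 𝒟 ∧
    (∀ F ∈ 𝒟, F.α = α ∧ F.β = 1) ∧ ∀ F ∈ 𝒞, ∃ F' ∈ 𝒟, g.act '' F.points = F'.points

end ops

section ext

variable {K : Type} [Field K] [Fintype K] [CharP K 2]

/-- If the collineation `g` maps the conic `F` into the conic `F'`. -/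
theorem main_ext (hK : 4 < Fintype.card K) (g : Collineation K) (F F' : Conic K)
    (hl : F.lam ≠ 0) (hl' : F'.lam ≠ 0) (h : ∀ v, F.form v = 0 → F'.form (g.e v) = 0) :
    g.e ![0, 0, 1] 0 = 0 ∧ g.e ![0, 0, 1] 1 = 0 ∧
    polar (g.e ![1, 0, 0]) (g.e ![0, 1, 0]) ≠ 0 ∧ g.e ![0, 0, 1] 2 ≠ 0 ∧
    F'.lam * g.e ![0, 0, 1] 2 ^ 2 = polar (g.e ![1, 0, 0]) (g.e ![0, 1, 0]) * g.σ F.lam ∧
    F'.form (g.e ![1, 0, 0]) = polar (g.e ![1, 0, 0]) (g.e ![0, 1, 0]) * g.σ F.α ∧
    F'.form (g.e ![0, 1, 0]) = polar (g.e ![1, 0, 0]) (g.e ![0, 1, 0]) * g.σ F.β := by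
  set m0 := g.e ![1, 0, 0] with hm0
  set m1 := g.e ![0, 1, 0] with hm1
  set m2 := g.e ![0, 0, 1] with hm2
  have hσl : g.σ F.lam ≠ 0 := by
    intro h0
    exact hl (g.σ.map_eq_zero_iff.1 h0)
  obtain ⟨s, hs⟩ := exists_sqrt (g.σ F.α / g.σ F.lam)
  obtain ⟨t, ht⟩ := exists_sqrt (g.σ F.β / g.σ F.lam)
  obtain ⟨u, hu⟩ := exists_sqrt (1 / g.σ F.lam)
  have hs' : g.σ F.lam * s ^ 2 = g.σ F.α := by rw [hs]; field_simp
  have ht' : g.σ F.lam * t ^ 2 = g.σ F.β := by rw [ht]; field_simp
  have hu' : g.σ F.lam * u ^ 2 = 1 := by rw [hu]; field_simp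
  have hu0 : u ≠ 0 := by
    rintro rfl
    simp at hu'
  have h2 : (2 : K) = 0 := CharTwo.two_eq_zero
  have hpoly : ∀ X : K,
      (F'.form m0 + F'.form m2 * s ^ 2 + polar m0 m2 * s) * X ^ 4 +
      (polar m0 m2 * u) * X ^ 3 +
      (F'.form m2 * u ^ 2 + polar m0 m1 + polar m0 m2 * t + polar m1 m2 * s) * X ^ 2 +
      (polar m1 m2 * u) * X +
      (F'.form m1 + F'.form m2 * t ^ 2 + polar m1 m2 * t) = 0 := by
    intro X
    set z := s * X ^ 2 + t + u * X with hz
    have h0 : F.form ![g.σ.symm (X ^ 2), g.σ.symm 1, g.σ.symm z] = 0 := by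
      apply g.σ.injective
      rw [_root_.map_zero]
      rw [form_vec]
      simp only [_root_.map_add, _root_.map_mul, _root_.map_pow, RingEquiv.apply_symm_apply]
      rw [hz]
      linear_combination (-(X ^ 4)) * hs' - ht' - X ^ 2 * hu' +
        (g.σ F.α * X ^ 4 + X ^ 2 + g.σ F.β + g.σ F.lam * (s * X ^ 2 * t + s * X ^ 2 * u * X +
          t * u * X) + (g.σ F.lam * s ^ 2 - g.σ F.α) * X ^ 4 + (g.σ F.lam * t ^ 2 - g.σ F.β) +
            (g.σ F.lam * u ^ 2 - 1) * X ^ 2) * h2
    have h1 := h _ h0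
    rw [apply_eq, form_add, form_add, polar_add_left, polar_smul, polar_smul, polar_smul,
      form_smul, form_smul, form_smul] at h1
    simp only [RingEquiv.apply_symm_apply] at h1
    rw [← hm0, ← hm1, ← hm2] at h1
    rw [hz] at h1
    linear_combination h1 - (F'.form m2 * (s * X ^ 2 * t + s * X ^ 2 * u * X + t * u * X)) * h2
  obtain ⟨e4, e3, e2, e1, e0⟩ := quartic_zero hK _ _ _ _ _ hpoly
  have hB02 : polar m0 m2 = 0 := (mul_eq_zero.1 e3).resolve_right hu0
  have hB12 : polar m1 m2 = 0 := (mul_eq_zero.1 e1).resolve_right hu0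
  rw [hB02, zero_mul, add_zero] at e4
  rw [hB12, zero_mul, add_zero] at e0
  rw [hB02, hB12, zero_mul, zero_mul, add_zero, add_zero] at e2
  have hQ : F'.form m2 = polar m0 m1 * g.σ F.lam := by
    linear_combination (g.σ F.lam) * e2 - F'.form m2 * hu' - (polar m0 m1 * g.σ F.lam) * h2
  have hc : polar m0 m1 ≠ 0 := by
    intro hc
    rw [hc, zero_mul] at hQ
    rw [hQ, zero_mul, add_zero] at e4 e0
    have hall : ∀ v, F'.form (g.e v) = 0 := by
      intro v
      have hv : v = ![v 0, v 1, v 2] := by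
        funext i
        fin_cases i <;> rfl
      rw [hv, apply_eq, form_add, form_add, polar_add_left, polar_smul, polar_smul, polar_smul,
        form_smul, form_smul, form_smul, ← hm0, ← hm1, ← hm2, e4, e0, hQ, hc, hB02, hB12]
      ring
    obtain ⟨v, hv⟩ := g.e.surjective ![0, 0, 1]
    have h3 := hall v
    rw [hv] at h3
    simp [Conic.form] at h3
    exact hl' h3
  have hm20 : m2 0 = 0 := by
    have h3 : polar m0 m1 * m2 0 = 0 := by
      have e5 : polar m0 m1 * m2 0 = m0 0 * polar m1 m2 + m1 0 * polar m0 m2 := by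
        simp only [polar]
        linear_combination (-(m0 0 * m1 0 * m2 1)) * h2
      rw [e5, hB02, hB12]
      ring
    exact (mul_eq_zero.1 h3).resolve_left hc
  have hm21 : m2 1 = 0 := by
    have h3 : polar m0 m1 * m2 1 = 0 := by
      have e5 : polar m0 m1 * m2 1 = m1 1 * polar m0 m2 + m0 1 * polar m1 m2 := by
        simp only [polar]
        linear_combination (-(m0 1 * m1 1 * m2 0)) * h2
      rw [e5, hB02, hB12]
      ring
    exact (mul_eq_zero.1 h3).resolve_left hc
  have hfin : F'.lam * m2 2 ^ 2 = polar m0 m1 * g.σ F.lam := by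
    rw [← hQ, Conic.form, hm20, hm21]
    ring
  refine ⟨hm20, hm21, hc, ?_, hfin, ?_, ?_⟩
  · intro h0
    rw [h0] at hfin
    have h5 : polar m0 m1 * g.σ F.lam = 0 := by rw [← hfin]; ring
    rcases mul_eq_zero.1 h5 with h6 | h6
    · exact hc h6
    · exact hσl h6
  · linear_combination e4 - s ^ 2 * hQ - polar m0 m1 * hs' - (polar m0 m1 * g.σ F.α) * h2
  · linear_combination e0 - t ^ 2 * hQ - polar m0 m1 * ht' - (polar m0 m1 * g.σ F.β) * h2

end ext

end Pool.Agent.U830.MA
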