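import Mathlib
import Pool.Agent.U830.MA.Stm
import Pool.Agent.U830.MA.Geo

/-!
# Mathon 8-arcs: the induced group of a proper arc is cyclic
-/

namespace Pool.Agent.U830.MA

open Pool.Agent.Results.MP_df3b73_co.InducedGroupProper

variable {K : Type} [Field K] [Fintype K] [Algebra (ZMod 2) K]

omit [Fintype K] in
theorem charP2 : CharP K 2 :=
  charP_of_injective_algebraMap (algebraMap (ZMod 2) K).injective 2

omit [Fintype K] in
theorem two0 : (2 : K) = 0 := by
  have : CharP K 2 := charP2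
  exact CharTwo.two_eq_zero

theorem trace_sq (w : K) :
    Algebra.trace (ZMod 2) K (w ^ 2) = Algebra.trace (ZMod 2) K w := by
  have h := Algebra.trace_eq_of_algEquiv (FiniteField.frobeniusAlgEquivOfAlgebraic (ZMod 2) K) w
  rw [← h]
  congr 1

theorem aniso {a b x y : K} (ht : Algebra.trace (ZMod 2) K (a * b) = 1)
    (h : a * x ^ 2 + x * y + b * y ^ 2 = 0) : x = 0 ∧ y = 0 := by
  have ha : a ≠ 0 := by
    rintro rfl
    rw [zero_mul, map_zero] at ht
    exact zero_ne_one ht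
  by_cases hy : y = 0
  · subst hy
    have h1 : a * x ^ 2 = 0 := by linear_combination h
    exact ⟨by simpa using (mul_eq_zero.1 h1).resolve_left ha, rfl⟩
  · exfalso
    have h1 : a * b = (a * x / y) ^ 2 + a * x / y := by
      have h2 : (a * b + ((a * x / y) ^ 2 + a * x / y)) * y ^ 2 = 0 := by
        field_simp
        linear_combination a * h
      have h3 := (mul_eq_zero.1 h2).resolve_right (pow_ne_zero 2 hy)
      linear_combination h3 - ((a * x / y) ^ 2 + a * x / y) * (two0 : (2 : K) = 0)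
    rw [h1, map_add, trace_sq] at ht
    have : Algebra.trace (ZMod 2) K (a * x / y) + Algebra.trace (ZMod 2) K (a * x / y) = 0 := by
      generalize Algebra.trace (ZMod 2) K (a * x / y) = t
      revert t
      decide
    rw [this] at ht
    exact zero_ne_one ht

variable {𝒞 : Finset (Conic K)}

theorem lam_add_ne (h𝒞 : IsMathonFamily 𝒞) {F F' : Conic K} (hF : F ∈ 𝒞) (hF' : F' ∈ 𝒞)
    (hne : F ≠ F') : F.lam + F'.lam ≠ 0 := by
  intro h
  have : CharP K 2 := charP2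
  exact (h𝒞.closed F hF F' hF' hne).1 (CharTwo.add_eq_zero.1 h)

theorem no_common (h𝒞 : IsMathonFamily 𝒞) {F F' : Conic K} (hF : F ∈ 𝒞) (hF' : F' ∈ 𝒞)
    (hne : F ≠ F') {x y z : K} (h1 : F.form ![x, y, z] = 0) (h2 : F'.form ![x, y, z] = 0) :
    x = 0 ∧ y = 0 := by
  have hD := lam_add_ne h𝒞 hF hF' hne
  have t1 := h𝒞.trace F hF
  have t2 := h𝒞.trace F' hF'
  have t3 := h𝒞.trace _ (h𝒞.closed F hF F' hF' hne).2
  have e1 : F.α * x ^ 2 + x * y + F.β * y ^ 2 + F.lam * z ^ 2 = 0 := h1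
  have e2 : F'.α * x ^ 2 + x * y + F'.β * y ^ 2 + F'.lam * z ^ 2 = 0 := h2
  have h2' : (2 : K) = 0 := two0
  have key : (F.α * F'.lam + F'.α * F.lam) / (F.lam + F'.lam) *
      ((F.β * F'.lam + F'.β * F.lam) / (F.lam + F'.lam)) =
      (F.oplus F').α * (F.oplus F').β + F.α * F.β + F'.α * F'.β := by
    show _ = (F.α * F.lam + F'.α * F'.lam) / (F.lam + F'.lam) *
      ((F.β * F.lam + F'.β * F'.lam) / (F.lam + F'.lam)) + F.α * F.β + F'.α * F'.β
    field_simp
    linear_combination (-(F.α * F.β * F.lam * (F.lam + F'.lam) +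
      F'.α * F'.β * F'.lam * (F.lam + F'.lam))) * h2'
  apply aniso (a := (F.α * F'.lam + F'.α * F.lam) / (F.lam + F'.lam))
    (b := (F.β * F'.lam + F'.β * F.lam) / (F.lam + F'.lam))
  · rw [key, map_add, map_add, t1, t2, t3]
    decide
  · have h3 : ((F.α * F'.lam + F'.α * F.lam) / (F.lam + F'.lam) * x ^ 2 + x * y +
        (F.β * F'.lam + F'.β * F.lam) / (F.lam + F'.lam) * y ^ 2) * (F.lam + F'.lam) = 0 := by
      field_simp
      linear_combination F'.lam * e1 + F.lam * e2 - (F.lam * F'.lam * z ^ 2) * h2'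
    exact (mul_eq_zero.1 h3).resolve_right hD

/-- the function `a ↦ a f(F)`, `λ_F = a`, on the group of the values `λ` -/
noncomputable def Uf (𝒞 : Finset (Conic K)) (f : Conic K → K) (a : K) : K := by
  classical
  exact if h : ∃ F ∈ 𝒞, F.lam = a then a * f h.choose else 0

theorem Uf_lam (h𝒞 : IsMathonFamily 𝒞) (f : Conic K → K) {F : Conic K} (hF : F ∈ 𝒞) :
    Uf 𝒞 f F.lam = F.lam * f F := by
  have h : ∃ F' ∈ 𝒞, F'.lam = F.lam := ⟨F, hF, rfl⟩
  unfold Uf
  rw [dif_pos h]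
  rw [lam_inj h𝒞 h.choose_spec.1 hF h.choose_spec.2]

theorem Uf_zero (h𝒞 : IsMathonFamily 𝒞) (f : Conic K → K) : Uf 𝒞 f 0 = 0 := by
  unfold Uf
  rw [dif_neg]
  rintro ⟨F, hF, h⟩
  exact h𝒞.lam_ne F hF h

theorem Uf_add (h𝒞 : IsMathonFamily 𝒞) (f : Conic K → K)
    (hf : ∀ F F' : Conic K, f (F.oplus F') = (f F * F.lam + f F' * F'.lam) / (F.lam + F'.lam)) :
    ∀ a ∈ (lamGroup h𝒞).toAddSubgroup, ∀ b ∈ (lamGroup h𝒞).toAddSubgroup,
      Uf 𝒞 f (a + b) = Uf 𝒞 f a + Uf 𝒞 f b := by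
  have : CharP K 2 := charP2
  rintro a (rfl | ⟨F, hF, rfl⟩) b (rfl | ⟨F', hF', rfl⟩)
  · rw [add_zero, Uf_zero h𝒞, add_zero]
  · rw [zero_add, Uf_zero h𝒞, zero_add]
  · rw [add_zero, Uf_zero h𝒞, add_zero]
  · by_cases hne : F = F'
    · subst hne
      rw [CharTwo.add_self_eq_zero, CharTwo.add_self_eq_zero, Uf_zero h𝒞]
    · have h1 := (h𝒞.closed F hF F' hF' hne).2
      have h2 := Uf_lam h𝒞 f h1
      have hD := lam_add_ne h𝒞 hF hF' hne
      rw [Uf_lam h𝒞 f hF, Uf_lam h𝒞 f hF']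
      have h3 : (F.oplus F').lam = F.lam + F'.lam := rfl
      rw [h3, hf] at h2
      rw [h2]
      field_simp

/-- conics in a pencil -/
theorem pencil (h𝒞 : IsMathonFamily 𝒞) {u0 u1 w0 w1 : K}
    (hu : ∀ F ∈ 𝒞, F.α = u0 + u1 * F.lam) (hw : ∀ F ∈ 𝒞, F.β = w0 + w1 * F.lam) :
    DennistonType 𝒞 := by
  classical
  have : CharP K 2 := charP2
  have h2' : (2 : K) = 0 := two0
  obtain ⟨F, hF, F', hF', hne⟩ : ∃ F ∈ 𝒞, ∃ F' ∈ 𝒞, F ≠ F' := by
    have h1 : 1 < 𝒞.card := by rw [h𝒞.card]; norm_num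
    obtain ⟨F, hF, F', hF', hne⟩ := Finset.one_lt_card.1 h1
    exact ⟨F, hF, F', hF', hne⟩
  have ht : Algebra.trace (ZMod 2) K (u0 * w0) = 1 := by
    have t1 := h𝒞.trace F hF
    have t2 := h𝒞.trace F' hF'
    have h3 := (h𝒞.closed F hF F' hF' hne).2
    have t3 := h𝒞.trace _ h3
    rw [hu _ h3, hw _ h3] at t3
    rw [hu _ hF, hw _ hF] at t1
    rw [hu _ hF', hw _ hF'] at t2
    have h4 : (F.oplus F').lam = F.lam + F'.lam := rfl
    rw [h4] at t3
    have e : u0 * w0 = (u0 + u1 * F.lam) * (w0 + w1 * F.lam) +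
        (u0 + u1 * F'.lam) * (w0 + w1 * F'.lam) +
        (u0 + u1 * (F.lam + F'.lam)) * (w0 + w1 * (F.lam + F'.lam)) := by
      linear_combination (-(u0 * w0 + u0 * w1 * (F.lam + F'.lam) + u1 * w0 * (F.lam + F'.lam) +
        u1 * w1 * (F.lam ^ 2 + F'.lam ^ 2 + F.lam * F'.lam))) * h2'
    rw [e, map_add, map_add, t1, t2, t3]
    decide
  have hw0 : w0 ≠ 0 := by
    rintro rfl
    rw [mul_zero, map_zero] at ht
    exact zero_ne_one ht
  obtain ⟨s, hs⟩ := exists_sqrt u1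
  obtain ⟨t, ht'⟩ := exists_sqrt w1
  obtain ⟨r, hr⟩ := exists_sqrt w0
  have hr0 : r ≠ 0 := by
    rintro rfl
    apply hw0
    rw [← hr]
    ring
  let g : Collineation K :=
    { e :=
        { toFun := fun v => ![v 0 / r, r * v 1, v 2 + s * v 0 + t * v 1]
          invFun := fun v => ![r * v 0, v 1 / r, v 2 + s * (r * v 0) + t * (v 1 / r)]
          left_inv := by
            intro v
            funext i
            fin_cases i
            · show r * (v 0 / r) = v 0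
              field_simp
            · show r * v 1 / r = v 1
              field_simp
            · show v 2 + s * v 0 + t * v 1 + s * (r * (v 0 / r)) + t * (r * v 1 / r) = v 2
              have e1 : r * (v 0 / r) = v 0 := by field_simp
              have e2 : r * v 1 / r = v 1 := by field_simp
              rw [e1, e2]
              linear_combination (s * v 0 + t * v 1) * h2'
          right_inv := by
            intro v
            funext i
            fin_cases i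
            · show r * v 0 / r = v 0
              field_simp
            · show r * (v 1 / r) = v 1
              field_simp
            · show v 2 + s * (r * v 0) + t * (v 1 / r) + s * (r * v 0) + t * (v 1 / r) = v 2
              linear_combination (s * (r * v 0) + t * (v 1 / r)) * h2' }
      σ := RingEquiv.refl K
      map_add := by
        intro u v
        funext i
        fin_cases i
        · show (u 0 + v 0) / r = u 0 / r + v 0 / r
          ring
        · show r * (u 1 + v 1) = r * u 1 + r * v 1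
          ring
        · show u 2 + v 2 + s * (u 0 + v 0) + t * (u 1 + v 1) =
            (u 2 + s * u 0 + t * u 1) + (v 2 + s * v 0 + t * v 1)
          ring
      map_smul := by
        intro c v
        funext i
        fin_cases i
        · show c * v 0 / r = c * (v 0 / r)
          ring
        · show r * (c * v 1) = c * (r * v 1)
          ring
        · show c * v 2 + s * (c * v 0) + t * (c * v 1) = c * (v 2 + s * v 0 + t * v 1)
          ring }
  refine ⟨𝒞.image (fun F => (⟨u0 * w0, 1, F.lam⟩ : Conic K)), u0 * w0, g, ?_, ?_, ?_⟩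
  · have hinj : Set.InjOn (fun F : Conic K => (⟨u0 * w0, 1, F.lam⟩ : Conic K)) 𝒞 := by
      intro F hF F' hF' h
      have h' : (⟨u0 * w0, 1, F.lam⟩ : Conic K) = ⟨u0 * w0, 1, F'.lam⟩ := h
      exact lam_inj h𝒞 (Finset.mem_coe.1 hF) (Finset.mem_coe.1 hF') (Conic.mk.inj h').2.2
    refine ⟨?_, ?_, ?_, ?_⟩
    · intro G hG
      obtain ⟨F, hF, rfl⟩ := Finset.mem_image.1 hG
      show Algebra.trace (ZMod 2) K (u0 * w0 * 1) = 1
      rw [mul_one, ht]
    · intro G hG
      obtain ⟨F, hF, rfl⟩ := Finset.mem_image.1 hG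
      exact h𝒞.lam_ne F hF
    · intro G hG G' hG' hne
      obtain ⟨F, hF, rfl⟩ := Finset.mem_image.1 hG
      obtain ⟨F', hF', rfl⟩ := Finset.mem_image.1 hG'
      have hne' : F ≠ F' := by
        rintro rfl
        exact hne rfl
      have hD := lam_add_ne h𝒞 hF hF' hne'
      refine ⟨(h𝒞.closed F hF F' hF' hne').1, ?_⟩
      refine Finset.mem_image.2 ⟨F.oplus F', (h𝒞.closed F hF F' hF' hne').2, ?_⟩
      show (⟨u0 * w0, 1, F.lam + F'.lam⟩ : Conic K) =
        ⟨(u0 * w0 * F.lam + u0 * w0 * F'.lam) / (F.lam + F'.lam),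
          (1 * F.lam + 1 * F'.lam) / (F.lam + F'.lam), F.lam + F'.lam⟩
      congr 1
      · field_simp
      · field_simp
    · rw [Finset.card_image_of_injOn hinj, h𝒞.card]
  · intro G hG
    obtain ⟨F, hF, rfl⟩ := Finset.mem_image.1 hG
    exact ⟨rfl, rfl⟩
  · intro F hF
    refine ⟨_, Finset.mem_image_of_mem _ hF, ?_⟩
    apply image_points
    intro v
    have h5 : (⟨u0 * w0, 1, F.lam⟩ : Conic K).form (g.e v) = F.form v := by
      show u0 * w0 * (v 0 / r) ^ 2 + (v 0 / r) * (r * v 1) + 1 * (r * v 1) ^ 2 +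
        F.lam * (v 2 + s * v 0 + t * v 1) ^ 2 =
        F.α * v 0 ^ 2 + v 0 * v 1 + F.β * v 1 ^ 2 + F.lam * v 2 ^ 2
      rw [hu F hF, hw F hF, ← hr, ← hs, ← ht']
      field_simp
      linear_combination (F.lam * (s * t * v 0 * v 1 + s * v 0 * v 2 + t * v 1 * v 2)) * h2'
    rw [h5]

theorem conj_σ (p g : Collineation K) (x : K) : (conj p g).σ x = p.σ.symm (g.σ (p.σ x)) := rfl

/-- linear collineations act trivially on the conics of a proper arc -/
theorem linear_trivial (hALG : S_ALG) (h𝒞 : IsMathonFamily 𝒞) (hD : ¬ DennistonType 𝒞)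
    {p g : Collineation K} {π : Equiv.Perm 𝒞} (h : Induces 𝒞 p g π) (hσ : ∀ x, g.σ x = x) :
    π = 1 := by
  have : CharP K 2 := charP2
  have h2' : (2 : K) = 0 := two0
  have hext := fun F : 𝒞 => main_ext (card_big h𝒞) (conj p g) F.1 (π F).1 (h𝒞.lam_ne _ F.2)
    (h𝒞.lam_ne _ (π F).2) (fun v hv => form_iff h F v hv)
  have hσ' : ∀ x, (conj p g).σ x = x := by
    intro x
    rw [conj_σ, hσ, RingEquiv.symm_apply_apply]
  simp only [hσ'] at hext
  generalize (conj p g).e ![1, 0, 0] = m0 at hext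
  generalize (conj p g).e ![0, 1, 0] = m1 at hext
  generalize (conj p g).e ![0, 0, 1] = m2 at hext
  obtain ⟨F0⟩ : Nonempty 𝒞 := by
    have h1 : 0 < 𝒞.card := by rw [h𝒞.card]; norm_num
    obtain ⟨F, hF⟩ := Finset.card_pos.1 h1
    exact ⟨⟨F, hF⟩⟩
  obtain ⟨-, -, hc, hn, -, -, -⟩ := hext F0
  set c := polar m0 m1 with hcdef
  set n := m2 2 with hndef
  have hk : ∀ F : 𝒞, (π F).1.lam = c / n ^ 2 * F.1.lam := by
    intro F
    obtain ⟨-, -, -, -, h5, -, -⟩ := hext F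
    field_simp
    exact h5
  have hr1 : ∀ F : 𝒞, (π F).1.α * m0 0 ^ 2 + m0 0 * m0 1 + (π F).1.β * m0 1 ^ 2 +
      (π F).1.lam * m0 2 ^ 2 = c * F.1.α := by
    intro F
    obtain ⟨-, -, -, -, -, h6, -⟩ := hext F
    exact h6
  have hr2 : ∀ F : 𝒞, (π F).1.α * m1 0 ^ 2 + m1 0 * m1 1 + (π F).1.β * m1 1 ^ 2 +
      (π F).1.lam * m1 2 ^ 2 = c * F.1.β := by
    intro F
    obtain ⟨-, -, -, -, -, -, h7⟩ := hext F
    exact h7
  set k := c / n ^ 2 with hkdef
  have hk0 : k ≠ 0 := div_ne_zero hc (pow_ne_zero 2 hn)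
  by_cases hk1 : k = 1
  · apply Equiv.ext
    intro F
    have h1 := hk F
    rw [hk1, one_mul] at h1
    exact Subtype.ext (lam_inj h𝒞 (π F).2 F.2 h1)
  · exfalso
    have hm := hALG K (lamGroup h𝒞).toAddSubgroup (Uf 𝒞 Conic.α) (Uf 𝒞 Conic.β) k
      (m0 0) (m0 1) (m0 2) (m1 0) (m1 1) (m1 2) (card_lamGroup h𝒞)
      (Uf_add h𝒞 _ (fun _ _ => rfl)) (Uf_add h𝒞 _ (fun _ _ => rfl)) hk0 hk1 ?_ hc ?_ ?_
    · rcases hm with ⟨u0, u1, w0, w1, h1⟩ | ⟨x, y, z, hxy, h1⟩
      · apply hD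
        apply pencil h𝒞 (u0 := u0) (u1 := u1) (w0 := w0) (w1 := w1)
        · intro F hF
          have h3 := (h1 F.lam (Or.inr ⟨F, hF, rfl⟩)).1
          rw [Uf_lam h𝒞 _ hF] at h3
          have h4 := h𝒞.lam_ne F hF
          apply mul_left_cancel₀ h4
          rw [h3]
          ring
        · intro F hF
          have h3 := (h1 F.lam (Or.inr ⟨F, hF, rfl⟩)).2
          rw [Uf_lam h𝒞 _ hF] at h3
          have h4 := h𝒞.lam_ne F hF
          apply mul_left_cancel₀ h4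
          rw [h3]
          ring
      · obtain ⟨F, hF, F', hF', hne⟩ : ∃ F ∈ 𝒞, ∃ F' ∈ 𝒞, F ≠ F' := by
          have h1 : 1 < 𝒞.card := by rw [h𝒞.card]; norm_num
          obtain ⟨F, hF, F', hF', hne⟩ := Finset.one_lt_card.1 h1
          exact ⟨F, hF, F', hF', hne⟩
        have hz : ∀ F ∈ 𝒞, F.form ![x, y, z] = 0 := by
          intro F hF
          have h3 := h1 F.lam (Or.inr ⟨F, hF, rfl⟩)
          rw [Uf_lam h𝒞 _ hF, Uf_lam h𝒞 _ hF] at h3
          have h4 := h𝒞.lam_ne F hF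
          have h5 : F.lam * F.form ![x, y, z] = 0 := by
            rw [form_vec]
            linear_combination h3
          exact (mul_eq_zero.1 h5).resolve_left h4
        obtain ⟨hx, hy⟩ := no_common h𝒞 hF hF' hne (hz F hF) (hz F' hF')
        rcases hxy with h6 | h6
        · exact h6 hx
        · exact h6 hy
    · rintro a (rfl | ⟨F, hF, rfl⟩)
      · left
        rw [mul_zero]
      · right
        exact ⟨(π ⟨F, hF⟩).1, (π ⟨F, hF⟩).2, hk ⟨F, hF⟩⟩
    · rintro a (rfl | ⟨F, hF, rfl⟩)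
      · rw [mul_zero, Uf_zero h𝒞, Uf_zero h𝒞]
        ring
      · have h3 := hk ⟨F, hF⟩
        have h4 := hr1 ⟨F, hF⟩
        rw [← h3, Uf_lam h𝒞 _ (π ⟨F, hF⟩).2, Uf_lam h𝒞 _ (π ⟨F, hF⟩).2, Uf_lam h𝒞 _ hF]
        have h5 : m0 0 * m1 1 + m0 1 * m1 0 = c := rfl
        rw [h5]
        have h3' : (π ⟨F, hF⟩).1.lam = k * F.lam := h3
        linear_combination (π ⟨F, hF⟩).1.lam * h4 + c * F.α * h3'
    · rintro a (rfl | ⟨F, hF, rfl⟩)
      · rw [mul_zero, Uf_zero h𝒞, Uf_zero h𝒞]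
        ring
      · have h3 := hk ⟨F, hF⟩
        have h4 := hr2 ⟨F, hF⟩
        rw [← h3, Uf_lam h𝒞 _ (π ⟨F, hF⟩).2, Uf_lam h𝒞 _ (π ⟨F, hF⟩).2, Uf_lam h𝒞 _ hF]
        have h5 : m0 0 * m1 1 + m0 1 * m1 0 = c := rfl
        rw [h5]
        have h3' : (π ⟨F, hF⟩).1.lam = k * F.lam := h3
        linear_combination (π ⟨F, hF⟩).1.lam * h4 + c * F.β * h3'

/-- the field automorphism as an algebra automorphism -/
def toAlg (σ : K ≃+* K) : K ≃ₐ[ZMod 2] K := AlgEquiv.ofRingEquiv (f := σ) (by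
  intro r
  have : r = 0 ∨ r = 1 := by revert r; decide
  rcases this with rfl | rfl <;> simp)

omit [Fintype K] in
theorem toAlg_apply (σ : K ≃+* K) (x : K) : toAlg σ x = σ x := rfl

/-- pairs of a field automorphism and the permutation induced by a collineation with it -/
def pairs (𝒞 : Finset (Conic K)) (p : Collineation K) :
    Subgroup ((K ≃ₐ[ZMod 2] K) × Equiv.Perm 𝒞) where
  carrier := {t | ∃ g : Collineation K, Induces 𝒞 p g t.2 ∧ ∀ x, t.1 x = g.σ x}
  mul_mem' := by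
    rintro t t' ⟨g, hg, hs⟩ ⟨g', hg', hs'⟩
    refine ⟨cComp g g', ind_mul hg hg', fun x => ?_⟩
    show t.1 (t'.1 x) = g.σ (g'.σ x)
    rw [hs', hs]
  one_mem' := ⟨cOne, ind_one, fun x => rfl⟩
  inv_mem' := by
    rintro t ⟨g, hg, hs⟩
    refine ⟨cInv g, ind_inv hg, fun x => ?_⟩
    show t.1.symm x = g.σ.symm x
    apply t.1.injective
    rw [AlgEquiv.apply_symm_apply, hs, RingEquiv.apply_symm_apply]

theorem pairs_inj (hALG : S_ALG) (h𝒞 : IsMathonFamily 𝒞) (hD : ¬ DennistonType 𝒞)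
    (p : Collineation K) :
    Function.Injective ((MonoidHom.fst (K ≃ₐ[ZMod 2] K) (Equiv.Perm 𝒞)).comp
      (pairs 𝒞 p).subtype) := by
  rw [injective_iff_map_eq_one]
  rintro ⟨t, g, hg, hs⟩ ht
  have ht' : t.1 = 1 := ht
  have h1 : t.2 = 1 := linear_trivial hALG h𝒞 hD hg (fun x => by rw [← hs, ht']; rfl)
  apply Subtype.ext
  exact Prod.ext ht' h1

/-- the map to the induced group -/
def toInd (𝒞 : Finset (Conic K)) (p : Collineation K) : pairs 𝒞 p →* inducedGroup 𝒞 p where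
  toFun t := ⟨t.1.2, by obtain ⟨g, hg, -⟩ := t.2; exact ⟨g, hg⟩⟩
  map_one' := rfl
  map_mul' _ _ := rfl

theorem toInd_surj (p : Collineation K) : Function.Surjective (toInd 𝒞 p) := by
  rintro ⟨π, g, hg⟩
  exact ⟨⟨(toAlg g.σ, π), g, hg, fun x => rfl⟩, rfl⟩

theorem cyclic_ind (hALG : S_ALG) (h𝒞 : IsMathonFamily 𝒞) (hD : ¬ DennistonType 𝒞)
    (p : Collineation K) : IsCyclic (inducedGroup 𝒞 p) := by
  have h1 : IsCyclic (pairs 𝒞 p) := isCyclic_of_injective _ (pairs_inj hALG h𝒞 hD p)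
  exact isCyclic_of_surjective (toInd 𝒞 p) (toInd_surj p)

theorem card_dvd (hALG : S_ALG) (h𝒞 : IsMathonFamily 𝒞) (hD : ¬ DennistonType 𝒞)
    (p : Collineation K) {h : ℕ} (hK : Fintype.card K = 2 ^ h) :
    Nat.card (inducedGroup 𝒞 p) ∣ h := by
  have h1 : Nat.card (inducedGroup 𝒞 p) ∣ Nat.card (pairs 𝒞 p) :=
    Subgroup.card_dvd_of_surjective (toInd 𝒞 p) (toInd_surj p)
  have h2 : Nat.card (pairs 𝒞 p) ∣ Nat.card (K ≃ₐ[ZMod 2] K) :=
    Subgroup.card_dvd_of_injective _ (pairs_inj hALG h𝒞 hD p)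
  have h3 : Nat.card (K ≃ₐ[ZMod 2] K) = h := by
    rw [IsGalois.card_aut_eq_finrank]
    have h4 := Module.card_eq_pow_finrank (K := ZMod 2) (V := K)
    rw [hK, ZMod.card] at h4
    exact (Nat.pow_right_injective le_rfl h4).symm
  rw [h3] at h2
  exact h1.trans h2

theorem order_le (hGL : S_GL) (h𝒞 : IsMathonFamily 𝒞) (p : Collineation K) {π : Equiv.Perm 𝒞}
    (hπ : π ∈ inducedGroup 𝒞 p) : ∃ n, 0 < n ∧ n ≤ 7 ∧ π ^ n = 1 := by
  have : CharP K 2 := charP2
  obtain ⟨g, hg⟩ := hπ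
  obtain ⟨k, σ, hk, hF⟩ := induced_form h𝒞 p g π hg
  have hmem : ∀ a : lamGroup h𝒞, k * σ a ∈ lamGroup h𝒞 := by
    rintro ⟨a, rfl | ⟨F, hF', rfl⟩⟩
    · left
      simp
    · right
      exact ⟨(π ⟨F, hF'⟩).1, (π ⟨F, hF'⟩).2, hF ⟨F, hF'⟩⟩
  let f : lamGroup h𝒞 → lamGroup h𝒞 := fun a => ⟨k * σ a, hmem a⟩
  obtain ⟨n, hn, hn7, hfn⟩ := hGL (lamGroup h𝒞) (card_lamGroup h𝒞)
    (fun v => Subtype.ext (CharTwo.add_self_eq_zero _)) f
    (by
      intro a b hab
      have h1 : k * σ (a : K) = k * σ (b : K) := congrArg Subtype.val hab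
      exact Subtype.ext (σ.injective (mul_left_cancel₀ hk h1)))
    (by
      intro a b
      apply Subtype.ext
      show k * σ ((a : K) + b) = k * σ a + k * σ b
      rw [map_add, mul_add])
  refine ⟨n, hn, hn7, ?_⟩
  have hit : ∀ (i : ℕ) (F : 𝒞), ((f^[i] ⟨F.1.lam, Or.inr ⟨F.1, F.2, rfl⟩⟩ : lamGroup h𝒞) : K) =
      ((π ^ i) F).1.lam := by
    intro i
    induction i with
    | zero => intro F; rfl
    | succ i ih =>
      intro F
      rw [Function.iterate_succ_apply', pow_succ']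
      show k * σ _ = (π ((π ^ i) F)).1.lam
      rw [hF, ih]
  apply Equiv.ext
  intro F
  have h1 := hit n F
  rw [hfn] at h1
  exact Subtype.ext (lam_inj h𝒞 F.2 ((π ^ n) F).2 h1).symm

theorem card_le (hALG : S_ALG) (hGL : S_GL) (h𝒞 : IsMathonFamily 𝒞) (hD : ¬ DennistonType 𝒞)
    (p : Collineation K) : Nat.card (inducedGroup 𝒞 p) ≤ 7 := by
  have h1 := cyclic_ind hALG h𝒞 hD p
  obtain ⟨π, hπ⟩ := h1.exists_generator
  rw [← orderOf_eq_card_of_forall_mem_zpowers hπ]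
  obtain ⟨n, hn, hn7, h2⟩ := order_le hGL h𝒞 p π.2
  have h3 : π ^ n = 1 := Subtype.ext h2
  exact (Nat.le_of_dvd hn (orderOf_dvd_of_pow_eq_one h3)).trans hn7

end Pool.Agent.U830.MA
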