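import Mathlib
import Pool.Agent.U830.MA.Up

/-!
# Mathon 8-arcs: a proper arc with a Singer cycle for every `h` divisible by `7`
-/

namespace Pool.Agent.U830.MA

open Pool.Agent.Results.MP_df3b73_co.InducedGroupProper

variable {K : Type} [Field K]

open Classical in
/-- the conics `F_{c, 1 + a³, a}`, `a ∈ R` -/
noncomputable def fam (c : K) (R : Finset K) : Finset (Conic K) :=
  R.image (fun a => (⟨c, 1 + a ^ 3, a⟩ : Conic K))

theorem mem_fam {c : K} {R : Finset K} {F : Conic K} :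
    F ∈ fam c R ↔ F.lam ∈ R ∧ F = ⟨c, 1 + F.lam ^ 3, F.lam⟩ := by
  classical
  unfold fam
  rw [Finset.mem_image]
  constructor
  · rintro ⟨a, ha, rfl⟩
    exact ⟨ha, rfl⟩
  · rintro ⟨h1, h2⟩
    exact ⟨F.lam, h1, h2.symm⟩

variable [Fintype K] [Algebra (ZMod 2) K]

theorem fam_mathon {c : K} {R : Finset K} (hR : R.card = 7)
    (hmem : ∀ a, a ∈ R ↔ a ^ 7 + a + 1 = 0)
    (htr : ∀ a ∈ R, Algebra.trace (ZMod 2) K (c * (1 + a ^ 3)) = 1) :
    IsMathonFamily (fam c R) := by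
  classical
  have : CharP K 2 := charP2
  have h2' : (2 : K) = 0 := two0
  refine ⟨?_, ?_, ?_, ?_⟩
  · intro F hF
    obtain ⟨h1, h2⟩ := mem_fam.1 hF
    rw [h2]
    exact htr _ h1
  · intro F hF h0
    obtain ⟨h1, h2⟩ := mem_fam.1 hF
    rw [h0, hmem] at h1
    norm_num at h1
  · intro F hF F' hF' hne
    obtain ⟨h1, h2⟩ := mem_fam.1 hF
    obtain ⟨h1', h3⟩ := mem_fam.1 hF'
    generalize F.lam = a at h1 h2
    generalize F'.lam = b at h1' h3
    subst h2 h3
    have hab : a ≠ b := by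
      rintro rfl
      exact hne rfl
    have hD : a + b ≠ 0 := fun h => hab (CharTwo.add_eq_zero.1 h)
    refine ⟨hab, ?_⟩
    rw [mem_fam]
    refine ⟨?_, ?_⟩
    · show a + b ∈ R
      rw [hmem] at h1 h1' ⊢
      have h4 : (a + b) * ((a + b) ^ 7 + (a + b) + 1) = 0 := by
        linear_combination a * h1 + b * h1' + (4 * a ^ 7 * b + 14 * a ^ 6 * b ^ 2 +
          28 * a ^ 5 * b ^ 3 + 35 * a ^ 4 * b ^ 4 + 28 * a ^ 3 * b ^ 5 + 14 * a ^ 2 * b ^ 6 +
          4 * a * b ^ 7 + a * b) * h2'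
      exact (mul_eq_zero.1 h4).resolve_left hD
    · show (⟨(c * a + c * b) / (a + b), ((1 + a ^ 3) * a + (1 + b ^ 3) * b) / (a + b), a + b⟩ :
        Conic K) = ⟨c, 1 + (a + b) ^ 3, a + b⟩
      have e1 : (c * a + c * b) / (a + b) = c := by field_simp
      have e2 : ((1 + a ^ 3) * a + (1 + b ^ 3) * b) / (a + b) = 1 + (a + b) ^ 3 := by
        rw [div_eq_iff hD]
        linear_combination (-(2 * a ^ 3 * b + 3 * a ^ 2 * b ^ 2 + 2 * a * b ^ 3)) * h2'
      rw [e1, e2]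
  · unfold fam
    rw [Finset.card_image_of_injective, hR]
    intro a b hab
    have hab' : (⟨c, 1 + a ^ 3, a⟩ : Conic K) = ⟨c, 1 + b ^ 3, b⟩ := hab
    exact (Conic.mk.inj hab').2.2

theorem fam_proper {c : K} {R : Finset K} (hR : R.card = 7)
    (hmem : ∀ a, a ∈ R ↔ a ^ 7 + a + 1 = 0)
    (htr : ∀ a ∈ R, Algebra.trace (ZMod 2) K (c * (1 + a ^ 3)) = 1) :
    ¬ DennistonType (fam c R) := by
  classical
  have : CharP K 2 := charP2
  have h2' : (2 : K) = 0 := two0
  have hM := fam_mathon hR hmem htr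
  rintro ⟨𝒟, α, g, h𝒟, hconst, hmap⟩
  have hext : ∀ a ∈ R, ∃ F' ∈ 𝒟,
      polar (g.e ![1, 0, 0]) (g.e ![0, 1, 0]) ≠ 0 ∧ g.e ![0, 0, 1] 2 ≠ 0 ∧
      F'.lam * g.e ![0, 0, 1] 2 ^ 2 = polar (g.e ![1, 0, 0]) (g.e ![0, 1, 0]) * g.σ a ∧
      F'.form (g.e ![0, 1, 0]) =
        polar (g.e ![1, 0, 0]) (g.e ![0, 1, 0]) * g.σ (1 + a ^ 3) := by
    intro a ha
    have hF : (⟨c, 1 + a ^ 3, a⟩ : Conic K) ∈ fam c R := mem_fam.2 ⟨ha, rfl⟩
    obtain ⟨F', hF', himg⟩ := hmap _ hF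
    obtain ⟨-, -, h3, h4, h5, -, h7⟩ := main_ext (card_big hM) g _ F' (hM.lam_ne _ hF)
      (h𝒟.lam_ne _ hF') (fun v hv => form_of_image himg v hv)
    exact ⟨F', hF', h3, h4, h5, h7⟩
  generalize polar (g.e ![1, 0, 0]) (g.e ![0, 1, 0]) = p at hext
  generalize g.e ![0, 0, 1] 2 = n at hext
  generalize g.e ![0, 1, 0] = m1 at hext
  obtain ⟨a0, ha0⟩ : R.Nonempty := by
    rw [← Finset.card_pos, hR]
    norm_num
  obtain ⟨_, _, hp, hn, _, _⟩ := hext a0 ha0
  set P0 := (α * m1 0 ^ 2 + m1 0 * m1 1 + m1 1 ^ 2) / p with hP0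
  set P1 := m1 2 ^ 2 / n ^ 2 with hP1
  have hlin : ∀ a ∈ R, 1 + a ^ 3 = g.σ.symm P0 + g.σ.symm P1 * a := by
    intro a ha
    obtain ⟨F', hF', -, -, h5, h7⟩ := hext a ha
    apply g.σ.injective
    rw [_root_.map_add g.σ (g.σ.symm P0), _root_.map_mul g.σ (g.σ.symm P1),
      RingEquiv.apply_symm_apply, RingEquiv.apply_symm_apply]
    have h8 : F'.lam = p * g.σ a / n ^ 2 := by
      rw [eq_div_iff (pow_ne_zero 2 hn)]
      exact h5
    have h9 : F'.α * m1 0 ^ 2 + m1 0 * m1 1 + F'.β * m1 1 ^ 2 + F'.lam * m1 2 ^ 2 =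
      p * g.σ (1 + a ^ 3) := h7
    rw [(hconst F' hF').1, (hconst F' hF').2, h8] at h9
    apply mul_left_cancel₀ hp
    rw [← h9, hP0, hP1]
    field_simp
  generalize g.σ.symm P0 = B0 at hlin
  generalize g.σ.symm P1 = B1 at hlin
  let P : Polynomial K := Polynomial.X ^ 3 - Polynomial.C B1 * Polynomial.X +
    Polynomial.C (1 - B0)
  have hdeg : P.natDegree ≤ 3 := by
    simp only [P]
    compute_degree
  have hP : P = 0 := by
    apply Polynomial.eq_zero_of_natDegree_lt_card_of_eval_eq_zero' P R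
    · intro a ha
      have := hlin a ha
      simp only [P, Polynomial.eval_add, Polynomial.eval_sub, Polynomial.eval_mul,
        Polynomial.eval_pow, Polynomial.eval_X, Polynomial.eval_C]
      linear_combination this
    · rw [hR]
      omega
  have h3 := congrArg (fun p => Polynomial.coeff p 3) hP
  simp [P, Polynomial.coeff_X, Polynomial.coeff_one] at h3

/-- the collineation `(x, y, z) ↦ (τ x, τ y, τ z)` -/
def frobC (τ : K ≃+* K) : Collineation K where
  e := Equiv.piCongrRight (fun _ => τ.toEquiv)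
  σ := τ
  map_add := by
    intro u v
    funext i
    exact _root_.map_add τ (u i) (v i)
  map_smul := by
    intro c v
    funext i
    exact _root_.map_mul τ c (v i)

theorem exists_perm {c : K} {R : Finset K} (hR : R.card = 7)
    (hmem : ∀ a, a ∈ R ↔ a ^ 7 + a + 1 = 0)
    (htr : ∀ a ∈ R, Algebra.trace (ZMod 2) K (c * (1 + a ^ 3)) = 1) (τ : K ≃+* K)
    (hc : τ c = c) (h1 : ∀ a ∈ R, τ a ≠ a) (h7 : ∀ a ∈ R, τ^[7] a = a) :
    ∃ π ∈ inducedGroup (fam c R) cOne, orderOf π = 7 := by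
  classical
  have hM := fam_mathon hR hmem htr
  have hτR : ∀ a ∈ R, τ a ∈ R := by
    intro a ha
    rw [hmem] at ha ⊢
    rw [← map_pow, ← _root_.map_add, ← _root_.map_one τ, ← _root_.map_add, ha,
      _root_.map_zero]
  let f : fam c R → fam c R := fun F => ⟨⟨c, 1 + (τ F.1.lam) ^ 3, τ F.1.lam⟩,
    mem_fam.2 ⟨hτR _ (mem_fam.1 F.2).1, rfl⟩⟩
  have hinj : Function.Injective f := by
    intro F F' h
    have h2 : τ F.1.lam = τ F'.1.lam := congrArg (fun G : fam c R => G.1.lam) h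
    exact Subtype.ext (lam_inj hM F.2 F'.2 (τ.injective h2))
  let π : Equiv.Perm (fam c R) := Equiv.ofBijective f (Finite.injective_iff_bijective.1 hinj)
  have hπ : ∀ F, (π F).1 = ⟨c, 1 + (τ F.1.lam) ^ 3, τ F.1.lam⟩ := fun F => rfl
  refine ⟨π, ⟨frobC τ, ?_⟩, ?_⟩
  · intro F
    have h2 : (cOne : Collineation K).act = id := funext act_one
    rw [h2, Set.image_id, Set.image_id]
    apply image_points
    intro v
    have h3 : (π F).1.form ((frobC τ).e v) = τ (F.1.form v) := by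
      rw [hπ]
      have h4 := (mem_fam.1 F.2).2
      have h5 : F.1.form v = (⟨c, 1 + F.1.lam ^ 3, F.1.lam⟩ : Conic K).form v := by
        rw [← h4]
      rw [h5]
      show c * (τ (v 0)) ^ 2 + τ (v 0) * τ (v 1) + (1 + (τ F.1.lam) ^ 3) * (τ (v 1)) ^ 2 +
        τ F.1.lam * (τ (v 2)) ^ 2 =
        τ (c * v 0 ^ 2 + v 0 * v 1 + (1 + F.1.lam ^ 3) * v 1 ^ 2 + F.1.lam * v 2 ^ 2)
      simp only [_root_.map_add, _root_.map_mul, _root_.map_pow, _root_.map_one, hc]
    rw [h3]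
    exact (map_eq_zero_iff τ τ.injective).symm
  · have : Fact (Nat.Prime 7) := ⟨by norm_num⟩
    apply orderOf_eq_prime
    · have hit : ∀ (i : ℕ) (F : fam c R), ((π ^ i) F).1.lam = τ^[i] F.1.lam := by
        intro i
        induction i with
        | zero => intro F; rfl
        | succ i ih =>
          intro F
          rw [pow_succ', Function.iterate_succ_apply']
          show (π ((π ^ i) F)).1.lam = _
          rw [hπ, ← ih]
      apply Equiv.ext
      intro F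
      apply Subtype.ext
      apply lam_inj hM ((π ^ 7) F).2 F.2
      rw [hit]
      exact h7 _ (mem_fam.1 F.2).1
    · intro h
      obtain ⟨F⟩ : Nonempty (fam c R) := by
        have h1 : 0 < (fam c R).card := by rw [hM.card]; norm_num
        obtain ⟨F, hF⟩ := Finset.card_pos.1 h1
        exact ⟨⟨F, hF⟩⟩
      have h2 : (π F).1.lam = F.1.lam := by rw [h]; rfl
      rw [hπ] at h2
      exact h1 _ (mem_fam.1 F.2).1 h2

end Pool.Agent.U830.MA
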